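import Mathlib
import Pool.Agent.H312R2.RG.Fin
import Pool.Agent.H507R3.RamGaps
import Pool.Agent.V11104.KR

set_option autoImplicit false

/-!
# Khintchine recurrence of all orders along consecutive primes with record gaps

Let `f(x) = log x (log₂ x)² log₄ x / (log₃ x)²`, the size of the largest gaps that are known to
occur among the primes up to `x`. For every `ε > 0`, `k` and `r` there are at least `x^(7/8)` blocks
of `k + 1` consecutive primes up to `x` whose `k` gaps are all at least `c f(x)` (each at least `B`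
times the preceding one), such that for each of `r` given measure preserving systems, functions
`g` with values in `[0, 1]`, and all subsets `Q` of the block the correlation
`∫ ∏_{q ∈ Q} g(T^q y) dμ(y)` is at least `(∫ g dμ)^|Q| - ε`. The constant `c` and the threshold for
`x` do not depend on the systems. The same is true for the upper Banach density of
`⋂_{q ∈ Q} (E - q)`, for `r` given sets of integers: every set of positive density contains
translates of such blocks of consecutive primes.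

Method: the Ramsey theorem for record chains of the starting library (`ramsey_chains`), applied to
blocks of a larger number of primes and to the colouring of a set `Q` by the validity of the
inequality, which is invariant under translations; the inequality of Gillis in all orders gives good
subsets of every size in every large set of times.
-/

namespace Pool.Agent.Results.MP_028722_nt.KhintchineChains

open MeasureTheory

/-- The record scale `f(x) = log x (log₂ x)² log₄ x / (log₃ x)²` (iterated natural logarithms). -/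
noncomputable def f (x : ℝ) : ℝ :=
  Real.log x * (Real.log (Real.log x)) ^ 2 * Real.log (Real.log (Real.log (Real.log x))) /
    (Real.log (Real.log (Real.log x))) ^ 2

/-- The `i`-th prime, numbered from `p 0 = 2`. -/
noncomputable def p (i : ℕ) : ℕ := Nat.nth Nat.Prime i

/-- The set `{p_n, …, p_{n+k}}` of `k + 1` consecutive primes. -/
noncomputable def block (n k : ℕ) : Finset ℕ := (Finset.range (k + 1)).image (fun i => p (n + i))

/-- The primes `p_n, …, p_{n+k}` are at most `x`, the `k` gaps between them are at least `c f(x)`,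
and each gap is at least `B` times the preceding one. -/
def RecordChain (B c x : ℝ) (k n : ℕ) : Prop :=
  (p (n + k) : ℝ) ≤ x ∧ (∀ i < k, c * f x ≤ (p (n + i + 1) : ℝ) - p (n + i)) ∧
    ∀ i, i + 1 < k → B * ((p (n + i + 1) : ℝ) - p (n + i)) ≤ (p (n + i + 2) : ℝ) - p (n + i + 1)

/-- `E ⊆ ℤ` has upper Banach density at least `δ`: for every `η > 0` there are intervals
`[b, b + N)` of arbitrarily large length `N` that contain at least `(δ - η) N` elements of `E`. -/
def DensityAtLeast (E : Set ℤ) (δ : ℝ) : Prop :=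
  ∀ η : ℝ, 0 < η → ∀ L : ℕ, ∃ (b : ℤ) (N : ℕ), L ≤ N ∧ 0 < N ∧
    (δ - η) * N ≤ (Set.ncard {n : ℤ | b ≤ n ∧ n < b + N ∧ n ∈ E} : ℝ)

theorem dens_iff (E : Set ℤ) (δ : ℝ) : DensityAtLeast E δ ↔ Pool.Agent.V11104.KR.UBD E δ := by
  classical
  unfold DensityAtLeast Pool.Agent.V11104.KR.UBD
  refine forall₂_congr fun η _ => forall_congr' fun L => exists_congr fun b =>
    exists_congr fun N => ?_
  have e : {n : ℤ | b ≤ n ∧ n < b + N ∧ n ∈ E} =
      (((Finset.Ico b (b + N)).filter (fun n => n ∈ E) : Finset ℤ) : Set ℤ) := by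
    ext n
    simp only [Set.mem_ofPred_eq, Finset.coe_filter, Finset.mem_Ico]
    tauto
  rw [e, Set.ncard_coe_finset]

theorem finite_aux (k : ℕ) (x : ℝ) (P : ℕ → Prop) (hP : ∀ n, P n → (p (n + k) : ℝ) ≤ x) :
    {n : ℕ | P n}.Finite := by
  refine (Set.finite_Iic ⌊x⌋₊).subset ?_
  intro n h0
  have h1 := hP n h0
  refine Nat.le_floor (le_trans ?_ h1)
  have h2 : n + k ≤ Nat.nth Nat.Prime (n + k) :=
    (Nat.nth_strictMono Nat.infinite_setOfPred_prime).le_apply
  exact_mod_cast (Nat.le_add_right n k).trans h2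

theorem first (k r : ℕ) (A : ℝ) (hA : 0 ≤ A) : ∃ c : ℝ, 0 < c ∧ ∃ x₀ : ℝ, ∀ x : ℝ, x₀ ≤ x →
    ∀ χ : Finset ℕ → Fin r, (∀ (Q : Finset ℕ) (a : ℕ), χ (Q.image (fun q => q + a)) = χ Q) →
    x ^ (7 / 8 : ℝ) ≤ (Set.ncard {n : ℕ | RecordChain A c x k n ∧
      ∀ Q Q' : Finset ℕ, Q ⊆ block n k → Q' ⊆ block n k → Q.card = Q'.card → χ Q = χ Q'} : ℝ) := by
  classical
  obtain ⟨c, hc, h⟩ := Pool.Agent.H507R3.RamGaps.ramsey_chains Pool.Agent.H312R2.RG.mtrg k r A hA
  obtain ⟨x₀, hx₀⟩ := Filter.eventually_atTop.1 h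
  refine ⟨c, hc, x₀, fun x hx χ hχ => ?_⟩
  refine (hx₀ x hx χ hχ).trans ?_
  rw [Nat.cast_le, ← Set.ncard_coe_finset]
  refine Set.ncard_le_ncard ?_ (finite_aux k x _ fun n hn => hn.1.1)
  intro n hn
  simp only [Finset.coe_filter, Finset.mem_range, Set.mem_ofPred_eq] at hn
  exact ⟨⟨hn.2.1, hn.2.2.1, hn.2.2.2.1⟩, hn.2.2.2.2⟩

/-- The general principle: properties of finite sets of times that are invariant under translations
and hold for some subset of every size `m ≤ k + 1` of every set of `K + 1` times. -/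
theorem principle (k K r : ℕ) (hkK : k ≤ K) (B : ℝ) (hB : 0 ≤ B) :
    ∃ c : ℝ, 0 < c ∧ ∃ x₀ : ℝ, ∀ x : ℝ, x₀ ≤ x →
    ∀ P : Fin r → Finset ℕ → Prop,
    (∀ (i : Fin r) (Q : Finset ℕ) (a : ℕ), P i (Q.image (fun q => q + a)) ↔ P i Q) →
    (∀ (i : Fin r) (S : Finset ℕ), S.card = K + 1 → ∀ m ≤ k + 1, ∃ Q ⊆ S, Q.card = m ∧ P i Q) →
    x ^ (7 / 8 : ℝ) ≤ (Set.ncard {n : ℕ | RecordChain B c x k n ∧
      ∀ i, ∀ Q : Finset ℕ, Q ⊆ block n k → P i Q} : ℝ) := by
  classical
  obtain ⟨c, hc, x₀, h⟩ := first K (Fintype.card (Fin r → Bool)) B hB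
  refine ⟨c, hc, x₀, fun x hx P hP hS => ?_⟩
  let e := Fintype.equivFin (Fin r → Bool)
  have hχ := h x hx (fun Q => e (fun i => decide (P i Q))) (fun Q a => by
    congr 1
    funext i
    simp only [hP i Q a])
  refine hχ.trans ?_
  rw [Nat.cast_le]
  refine Set.ncard_le_ncard ?_ (finite_aux k x _ fun n hn => hn.1.1)
  rintro n ⟨hrec, hmono⟩
  have hsm : StrictMono p := Nat.nth_strictMono Nat.infinite_setOfPred_prime
  have hcard : ∀ k : ℕ, (block n k).card = k + 1 := by
    intro k
    unfold block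
    rw [Finset.card_image_of_injective, Finset.card_range]
    intro a b hab
    have := hsm.injective hab
    omega
  have hsub : block n k ⊆ block n K := by
    refine Finset.image_subset_image ?_
    intro i hi
    rw [Finset.mem_range] at hi ⊢
    omega
  refine ⟨⟨?_, ?_, ?_⟩, ?_⟩
  · refine le_trans ?_ hrec.1
    exact_mod_cast hsm.monotone (by omega)
  · intro i hi
    exact hrec.2.1 i (by omega)
  · intro i hi
    exact hrec.2.2 i (by omega)
  · intro i Q hQ
    have h1 : Q.card ≤ k + 1 := (Finset.card_le_card hQ).trans (hcard k).le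
    obtain ⟨Q', hQ', hc', hPQ'⟩ := hS i (block n K) (hcard K) Q.card h1
    have h2 := e.injective (hmono Q Q' (hQ.trans hsub) hQ' hc'.symm)
    have h3 := congrFun h2 i
    simp only [decide_eq_decide] at h3
    exact h3.2 hPQ'

universe u

/-- **Recurrence of all orders along consecutive primes with record gaps.** Let `k, r ≥ 0`, `B ≥ 0`
and `ε > 0`.

1. There are `c > 0` and `x₀` such that for all `x ≥ x₀` and all families of `r` probability
measure preserving transformations `T i` of `(X i, μ i)` and measurable functions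
`g i : X i → [0, 1]`, at least `x^(7/8)` blocks `p_n, …, p_{n+k}` of consecutive primes up to `x`
have all gaps at least `c f(x)`, each gap at least `B` times the preceding one, and
`∫ ∏_{q ∈ Q} g i (T i ^ q y) dμ i(y) ≥ (∫ g i dμ i)^|Q| - ε` for all `i` and all subsets `Q` of the
block.

2. There are `c > 0` and `x₀` such that for all `x ≥ x₀` and all families of `r` sets `E i ⊆ ℤ` of
upper Banach density at least `δ i > 0`, at least `x^(7/8)` blocks `p_n, …, p_{n+k}` of consecutive
primes up to `x` have all gaps at least `c f(x)`, each gap at least `B` times the preceding one, and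
the set of the `n` with `n + q ∈ E i` for all `q ∈ Q` has upper Banach density at least
`δ i ^ |Q| - ε`, for all `i` and all subsets `Q` of the block. -/
theorem result (k r : ℕ) (B : ℝ) (hB : 0 ≤ B) (ε : ℝ) (hε : 0 < ε) :
    (∃ c : ℝ, 0 < c ∧ ∃ x₀ : ℝ, ∀ x : ℝ, x₀ ≤ x →
      ∀ (X : Fin r → Type u) [∀ i, MeasurableSpace (X i)] (μ : ∀ i, Measure (X i))
        [∀ i, IsProbabilityMeasure (μ i)] (T : ∀ i, X i → X i)
        (_ : ∀ i, MeasurePreserving (T i) (μ i) (μ i)) (g : ∀ i, X i → ℝ)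
        (_ : ∀ i, Measurable (g i)) (_ : ∀ i y, 0 ≤ g i y ∧ g i y ≤ 1),
      x ^ (7 / 8 : ℝ) ≤ (Set.ncard {n : ℕ | RecordChain B c x k n ∧
        ∀ i, ∀ Q : Finset ℕ, Q ⊆ block n k →
          (∫ y, g i y ∂(μ i)) ^ Q.card - ε ≤ ∫ y, ∏ q ∈ Q, g i ((T i)^[q] y) ∂(μ i)} : ℝ)) ∧
    ∃ c : ℝ, 0 < c ∧ ∃ x₀ : ℝ, ∀ x : ℝ, x₀ ≤ x →
      ∀ (E : Fin r → Set ℤ) (δ : Fin r → ℝ), (∀ i, 0 < δ i) → (∀ i, DensityAtLeast (E i) (δ i)) →
      x ^ (7 / 8 : ℝ) ≤ (Set.ncard {n : ℕ | RecordChain B c x k n ∧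
        ∀ i, ∀ Q : Finset ℕ, Q ⊆ block n k →
          DensityAtLeast {n : ℤ | ∀ q ∈ Q, n + (q : ℤ) ∈ E i} (δ i ^ Q.card - ε)} : ℝ) := by
  classical
  obtain ⟨K, hkK, hK⟩ : ∃ K : ℕ, k ≤ K ∧ (((k + 1 : ℕ) : ℝ)) ^ 2 / ((K + 1 : ℕ) : ℝ) ≤ ε := by
    refine ⟨k + ⌈(((k + 1 : ℕ) : ℝ)) ^ 2 / ε⌉₊, by omega, ?_⟩
    rw [div_le_iff₀ (by positivity), ← div_le_iff₀' hε]
    refine (Nat.le_ceil _).trans ?_
    exact_mod_cast (by omega)
  obtain ⟨c, hc, x₀, h⟩ := principle k K r hkK B hB
  refine ⟨⟨c, hc, x₀, ?_⟩, c, hc, x₀, ?_⟩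
  · intro x hx X _ μ _ T hT g hg hg01
    refine h x hx (fun i Q => (∫ y, g i y ∂(μ i)) ^ Q.card - ε ≤
      ∫ y, ∏ q ∈ Q, g i ((T i)^[q] y) ∂(μ i)) ?_ ?_
    · intro i Q a
      have hcard : (Q.image (fun q => q + a)).card = Q.card :=
        Finset.card_image_of_injective _ (add_left_injective a)
      simp only [hcard]
      rw [Pool.Agent.V11104.KR.mps_trans (μ i) (T i) (hT i) (g i) (hg i) Q a]
    · intro i S hS m hm
      exact Pool.Agent.V11104.KR.mps_exists (μ i) (T i) (hT i) (g i) (hg i)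
        (fun y => (hg01 i y).1) (fun y => (hg01 i y).2) (k + 1) (K + 1) ε hε (by omega) hK S hS m hm
  · intro x hx E δ hδ hE
    refine h x hx (fun i Q => DensityAtLeast {n : ℤ | ∀ q ∈ Q, n + (q : ℤ) ∈ E i}
      (δ i ^ Q.card - ε)) ?_ ?_
    · intro i Q a
      have hcard : (Q.image (fun q => q + a)).card = Q.card :=
        Finset.card_image_of_injective _ (add_left_injective a)
      simp only [hcard]
      rw [dens_iff, dens_iff]
      exact Pool.Agent.V11104.KR.dens_trans (E i) Q a _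
    · intro i S hS m hm
      obtain ⟨Q, h1, h2, h3⟩ := Pool.Agent.V11104.KR.dens_exists (E i) (δ i) (hδ i)
        ((dens_iff _ _).1 (hE i)) (k + 1) (K + 1) ε hε (by omega) hK S hS m hm
      exact ⟨Q, h1, h2, (dens_iff _ _).2 h3⟩

end Pool.Agent.Results.MP_028722_nt.KhintchineChains
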