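import Pool.Agent.V1179.MH.FM6

set_option autoImplicit false

/-!
# Record prime gaps around solutions of monomial congruences in short boxes

Write `f(Z) = log Z (log₂ Z)² log₄ Z / (log₃ Z)²` (the size of the longest prime gaps below `Z` that are
known, from the starting library).

Let `k ≥ 3` and `ε > 0`. There are `κ > 0` and `P₀` such that for every prime `P ≥ P₀`, every integer
`a` that is not divisible by `P`, every box `[M₁, M₁ + L₁) × ⋯ × [M_k, M_k + L_k)` in `[0, P)^k` with
sides `L_j ≥ √P` and `L₁ ⋯ L_k ≥ P ^ (max(2, k / 2) + ε)` and every `S ⊆ {1, …, k}`: the congruence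
`∏_{j ∈ S} x_j ≡ a ∏_{j ∉ S} x_j (mod P)` has a solution in the box with no prime within `κ f(P)` of any
of the `k` numbers `x₁, …, x_k`.

For `k = 4`: every residue class modulo `P` is a product of four numbers (and a quotient
`x₁ x₂ / (x₃ x₄)`) from four prescribed intervals of length `P ^ (1/2 + ε)`, each of them in the middle of
a prime gap of this size; for `k = 3` length `P ^ (2/3 + ε)` is enough.

Proof: a bound `P ^ (1 + o(1)) L²` for the fourth moment of the sums of the nonprincipal characters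
modulo `P` over progressions of small moduli in an arbitrary interval of length `L ≥ √P` (Gauss sums, and
a count of `l₁ l₂ ≡ l₃ l₄ (mod P)` with the divisor bound), the Pólya–Vinogradov bound for such
progressions, and the covering criterion for vectors of integers of the library
(`Pool.Agent.Y961.JR.critJ`).
-/

namespace Pool.Agent.Results.MP_028722_nt.MonomialCongruences

/-- the size of the largest known prime gaps below `Z` -/
noncomputable def f (Z : ℝ) : ℝ :=
  Real.log Z * (Real.log (Real.log Z)) ^ 2 * Real.log (Real.log (Real.log (Real.log Z))) /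
    (Real.log (Real.log (Real.log Z))) ^ 2

/-- no prime is at distance at most `d` from `x` -/
def PrimeFreeAround (x d : ℝ) : Prop := ∀ q : ℕ, q.Prime → d < |(q : ℝ) - x|

theorem result (k : ℕ) (hk : 3 ≤ k) (ε : ℝ) (hε : 0 < ε) :
    ∃ κ : ℝ, 0 < κ ∧ ∃ P₀ : ℕ, ∀ P : ℕ, P₀ ≤ P → P.Prime →
    ∀ a : ℤ, ¬ (P : ℤ) ∣ a → ∀ M L : Fin k → ℕ, (∀ j, M j + L j ≤ P) →
    (∀ j, Real.sqrt P ≤ L j) → (P : ℝ) ^ (max 2 ((k : ℝ) / 2) + ε) ≤ ∏ j, (L j : ℝ) →
    ∀ S : Finset (Fin k), ∃ x : Fin k → ℕ, (∀ j, M j ≤ x j ∧ x j < M j + L j) ∧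
      (P : ℤ) ∣ ∏ j ∈ S, (x j : ℤ) - a * ∏ j ∈ Sᶜ, (x j : ℤ) ∧
      ∀ j, PrimeFreeAround (x j) (κ * f P) :=
  Pool.Agent.V1179.MH.all_classes k hk ε hε

end Pool.Agent.Results.MP_028722_nt.MonomialCongruences
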