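import Pool.Agent.V1179.MH.Poly

set_option autoImplicit false

/-!
# Record prime gaps around the residues modulo a prime of several polynomials at one argument

Write `f(Z) = log Z (log₂ Z)² log₄ Z / (log₃ Z)²` (the size of the longest prime gaps below `Z` that are
known, from the starting library).

Let `d ≥ 0`, `r ≥ 1` and `ε > 0`. There are `κ > 0` and `P₀` such that the following holds for every
prime `P ≥ P₀` and ALL polynomials `g₁, …, g_r` of degree at most `d + 1` over the field of `P` elements
(they may depend on `P`) no nontrivial linear combination of which is constant: for every box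
`[M₁, M₁ + L₁) × ⋯ × [M_r, M_r + L_r)` in `[0, P)^r` with `L₁ ⋯ L_r ≥ P ^ (r - 1/2^d + ε)` there is an
`x` such that for every `j` the residue of `g_j(x)` in `[0, P)` lies in `[M_j, M_j + L_j)` and no prime
lies within `κ f(P)` of it.

For instance `g_j = X ^ j`: some `x` in a short interval has all its powers `x, x² mod P, …, x^r mod P`
in the middle of prime gaps of this size, and in prescribed intervals.

Proof: the covering criterion for vectors of integers of the library (`Pool.Agent.Y961.JR.critJ`), whose
hypothesis (the distribution of the vector in residue classes modulo all small numbers) is verified by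
completion modulo `P` and Weyl differencing of complete exponential sums.
-/

namespace Pool.Agent.Results.MP_028722_nt.PolynomialResidues

open Polynomial

/-- the size of the largest known prime gaps below `Z` -/
noncomputable def f (Z : ℝ) : ℝ :=
  Real.log Z * (Real.log (Real.log Z)) ^ 2 * Real.log (Real.log (Real.log (Real.log Z))) /
    (Real.log (Real.log (Real.log Z))) ^ 2

/-- no prime is at distance at most `d` from `x` -/
def PrimeFreeAround (x d : ℝ) : Prop := ∀ q : ℕ, q.Prime → d < |(q : ℝ) - x|

theorem result (d r : ℕ) (hr : 1 ≤ r) (ε : ℝ) (hε : 0 < ε) :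
    ∃ κ : ℝ, 0 < κ ∧ ∃ P₀ : ℕ, ∀ P : ℕ, P₀ ≤ P → P.Prime →
    ∀ g : Fin r → (ZMod P)[X], (∀ j, (g j).natDegree ≤ d + 1) →
    (∀ c : Fin r → ZMod P, c ≠ 0 → 1 ≤ (∑ j, C (c j) * g j).natDegree) →
    ∀ M L : Fin r → ℕ, (∀ j, M j + L j ≤ P) →
    (P : ℝ) ^ ((r : ℝ) - 1 / 2 ^ d + ε) ≤ ∏ j, (L j : ℝ) →
    ∃ x : ZMod P, ∀ j, M j ≤ ((g j).eval x).val ∧ ((g j).eval x).val < M j + L j ∧
      PrimeFreeAround (((g j).eval x).val) (κ * f P) :=
  Pool.Agent.V1179.MH.polys d r hr ε hε

end Pool.Agent.Results.MP_028722_nt.PolynomialResidues
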