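import Pool.Agent.V1179.MH.LG3

set_option autoImplicit false

/-!
# Consecutive outputs of a linear congruential generator in record prime gaps

Write `f(Z) = log Z (log₂ Z)² log₄ Z / (log₃ Z)²` (the size of the longest prime gaps below `Z` that are
known, from the starting library).

Let `k ≥ 2` and `0 < ε ≤ 1`. There are `κ > 0` and `P₀` such that the following holds for every prime
`P ≥ P₀`, every linear congruential generator `X_{n+1} ≡ g X_n + b (mod P)` with `X₁ ≠ X₀`, whose
multiplier `g` has multiplicative order at least `P ^ (1/2 + ε)` and is not a root modulo `P` of a nonzero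
integer polynomial of degree less than `k` with coefficients at most `P ^ ε` in absolute value (this
excludes fewer than `k (2 P ^ ε + 1) ^ k` multipliers): among any `N ≥ P ^ (1/2 + ε)` consecutive indices
there is an `n` such that no prime lies within `κ f(P)` of any of the `k` consecutive outputs
`X_n, …, X_{n+k-1}` (residues in `[0, P)`).

Proof. The outputs are `f + z g ^ n`; by completion (the sums over stretches of powers of helper113,
`Pool.Agent.V11113.MP.pow_norm`) the number of `n` with prescribed classes of the `k` residues modulo a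
small number `q` is the expected multiple of the number of all `v` modulo `P` such that the residues of
`g ^ j v + β_j` lie in these classes, up to `P ^ (1/2 + o(1))`. The latter number is a count of integer
parts of `(a_j v + β_j) / P` in residue classes, which follows from geometric sums and the discrepancy
lemma `Pool.Agent.Y961.JR.discJ` of the starting library. The covering criterion for vectors of integers
(`Pool.Agent.Y961.JR.critJ`) finishes the proof.
-/

namespace Pool.Agent.Results.MP_028722_nt.PseudorandomNumbers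

/-- the size of the largest known prime gaps below `Z` -/
noncomputable def f (Z : ℝ) : ℝ :=
  Real.log Z * (Real.log (Real.log Z)) ^ 2 * Real.log (Real.log (Real.log (Real.log Z))) /
    (Real.log (Real.log (Real.log Z))) ^ 2

/-- no prime is at distance at most `d` from `x` -/
def PrimeFreeAround (x d : ℝ) : Prop := ∀ q : ℕ, q.Prime → d < |(q : ℝ) - x|

theorem result (k : ℕ) (hk : 2 ≤ k) (ε : ℝ) (h0 : 0 < ε) (h1 : ε ≤ 1) :
    ∃ κ : ℝ, 0 < κ ∧ ∃ P₀ : ℕ, ∀ P : ℕ, P₀ ≤ P → P.Prime →
    ∀ (g b : ZMod P) (X : ℕ → ZMod P), (∀ n, X (n + 1) = g * X n + b) → X 1 ≠ X 0 →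
    (P : ℝ) ^ (1 / 2 + ε) ≤ orderOf g →
    (∀ h : Fin k → ℤ, h ≠ 0 → (∀ j, |(h j : ℝ)| ≤ (P : ℝ) ^ ε) →
      ∑ j, (h j : ZMod P) * g ^ (j : ℕ) ≠ 0) →
    ∀ N₀ N : ℕ, (P : ℝ) ^ (1 / 2 + ε) ≤ N → ∃ n : ℕ, N₀ ≤ n ∧ n < N₀ + N ∧
      ∀ j : Fin k, PrimeFreeAround (X (n + j)).val (κ * f P) := by
  obtain ⟨m, rfl⟩ : ∃ m, k = m + 1 := ⟨k - 1, by omega⟩
  obtain ⟨κ, hκ, P₀, h⟩ := Pool.Agent.V1179.MH.lehmer m (by omega) ε h0 h1
  refine ⟨κ, hκ, P₀, fun P hP hPp g b X hX hX1 hg hrel N₀ N hN => ?_⟩
  have : Fact P.Prime := ⟨hPp⟩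
  exact h P hP g b X hX hX1 hg hrel N₀ N hN

end Pool.Agent.Results.MP_028722_nt.PseudorandomNumbers
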